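import Mathlib

/-!
# Having connected boundaries is a quasi-isometry invariant of Cayley graphs

We prove that the property of having connected boundaries (`CB_r` for some `r`) passes from a
Cayley graph to every Cayley graph that is quasi-isometric to it.  In particular it is invariant
under change of the finite generating set and under bi-Lipschitz equivalence.

Outline of the proof.

1. For a connected locally finite graph, a set `F` such that `F` and its complement are connected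
   is c-connected iff its edge boundary is finite (star-comb argument, `common_end`).
2. Cut lemma (`cut_lemma`): if the edge boundary of `F` is finite and coloured such that each
   bond inside it is monochromatic, then each colour class is itself an edge boundary.
3. Transfer (`transfer`): if the outer boundary of a c-connected `F'` of the target graph splits
   into two far apart parts, pull `F'` back, apply 2 there (bonds of the source are monochromatic
   by `CB_r`), and push the resulting set forward again, to get a set of vertices of the target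
   whose edge boundary is exactly one of the two parts.  This contradicts connectedness.
4. Annulus argument (`annulus`): apply 3 to the complements of the components of the complement
   of a neighbourhood of a c-connected set.
-/

open SimpleGraph Relation

namespace Pool.Agent.Results.MP_40378c_al.QIInvariance

universe u v

variable {V : Type u}

/-- `N_r(K)`: the vertices at distance at most `r` from `K`. -/
def nbhd (Γ : SimpleGraph V) (r : ℕ) (K : Set V) : Set V := {x | ∃ y ∈ K, Γ.dist x y ≤ r}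

/-- A ray: an injective sequence of vertices with consecutive ones adjacent. -/
def IsRay (Γ : SimpleGraph V) (ρ : ℕ → V) : Prop :=
  Function.Injective ρ ∧ ∀ n, Γ.Adj (ρ n) (ρ (n + 1))

/-- Two rays belong to the same end: for every finite vertex set `K` they have tails in one
component of the graph with `K` removed (all late vertices of the two rays are joined by walks
that avoid `K`). -/
def SameEnd (Γ : SimpleGraph V) (ρ σ : ℕ → V) : Prop :=
  ∀ K : Set V, K.Finite → ∃ N : ℕ, ∀ m, N ≤ m → ∀ n, N ≤ n →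
    ∃ p : Γ.Walk (ρ m) (σ n), ∀ x ∈ p.support, x ∉ K

/-- `F` is c-connected: `F` and its complement induce connected subgraphs, and no end can be
reached both from `F` and from its complement (no ray in `F` and ray in the complement of `F`
belong to the same end). -/
def CConnected (Γ : SimpleGraph V) (F : Set V) : Prop :=
  (Γ.induce F).Connected ∧ (Γ.induce Fᶜ).Connected ∧
    ¬ ∃ ρ σ : ℕ → V, IsRay Γ ρ ∧ IsRay Γ σ ∧ (∀ n, ρ n ∈ F) ∧ (∀ n, σ n ∈ Fᶜ) ∧ SameEnd Γ ρ σ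

/-- `CB_r`: `N_{r+1}(F) \ F` is connected for every c-connected `F`. -/
def CB (Γ : SimpleGraph V) (r : ℕ) : Prop :=
  ∀ F : Set V, CConnected Γ F → (Γ.induce (nbhd Γ (r + 1) F \ F)).Connected

/-- The graph has connected boundaries: it has `CB_r` for some `r`. -/
def HasConnectedBoundaries (Γ : SimpleGraph V) : Prop := ∃ r : ℕ, CB Γ r

/-- The vertex sets of two graphs, with the graph metrics, are quasi-isometric. -/
def QuasiIsometric {V : Type u} {V' : Type v} (Γ : SimpleGraph V) (Γ' : SimpleGraph V') : Prop :=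
  ∃ (f : V → V') (L C : ℝ), 1 ≤ L ∧ 0 ≤ C ∧
    (∀ x y, (Γ.dist x y : ℝ) / L - C ≤ (Γ'.dist (f x) (f y) : ℝ) ∧
      (Γ'.dist (f x) (f y) : ℝ) ≤ L * (Γ.dist x y : ℝ) + C) ∧
    ∀ w, ∃ x, (Γ'.dist w (f x) : ℝ) ≤ C

/-- The vertex sets of two graphs, with the graph metrics, are bi-Lipschitz equivalent. -/
def BiLipschitzEquivalent {V : Type u} {V' : Type v} (Γ : SimpleGraph V)
    (Γ' : SimpleGraph V') : Prop :=
  ∃ (f : V ≃ V') (L : ℝ), 1 ≤ L ∧
    ∀ x y, (Γ.dist x y : ℝ) / L ≤ (Γ'.dist (f x) (f y) : ℝ) ∧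
      (Γ'.dist (f x) (f y) : ℝ) ≤ L * (Γ.dist x y : ℝ)

/-! ## Internal machinery -/

/-- connected inside `S`. -/
def RC (Γ : SimpleGraph V) (S : Set V) (x y : V) : Prop :=
  ReflTransGen (fun a b => Γ.Adj a b ∧ a ∈ S ∧ b ∈ S) x y

theorem RC.symm' {Γ : SimpleGraph V} {S : Set V} {x y : V} (h : RC Γ S x y) : RC Γ S y x := by
  induction h with
  | refl => exact ReflTransGen.refl
  | tail _ h ih => exact ReflTransGen.trans (ReflTransGen.single ⟨h.1.symm, h.2.2, h.2.1⟩) ih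

theorem RC.trans' {Γ : SimpleGraph V} {S : Set V} {x y z : V} (h : RC Γ S x y)
    (h' : RC Γ S y z) : RC Γ S x z := ReflTransGen.trans h h'

theorem RC.single' {Γ : SimpleGraph V} {S : Set V} {x y : V} (h : Γ.Adj x y) (hx : x ∈ S)
    (hy : y ∈ S) : RC Γ S x y := ReflTransGen.single ⟨h, hx, hy⟩

theorem RC.rfl' {Γ : SimpleGraph V} {S : Set V} {x : V} : RC Γ S x x := ReflTransGen.refl

theorem RC.mono {Γ : SimpleGraph V} {S T : Set V} (hST : S ⊆ T) {x y : V} (h : RC Γ S x y) :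
    RC Γ T x y := by
  induction h with
  | refl => exact ReflTransGen.refl
  | tail _ h ih => exact ReflTransGen.tail ih ⟨h.1, hST h.2.1, hST h.2.2⟩

theorem RC.mem {Γ : SimpleGraph V} {S : Set V} {x y : V} (h : RC Γ S x y) (hx : x ∈ S) :
    y ∈ S := by
  induction h with
  | refl => exact hx
  | tail _ h _ => exact h.2.2

/-- Propagation of a predicate. -/
theorem RC.prop {Γ : SimpleGraph V} {S : Set V} {x y : V} (h : RC Γ S x y) (P : V → Prop)
    (hP : ∀ a b, Γ.Adj a b → a ∈ S → b ∈ S → P a → P b) (hx : P x) : P y := by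
  induction h with
  | refl => exact hx
  | tail _ h ih => exact hP _ _ h.1 h.2.1 h.2.2 ih

theorem RC.of_walk {Γ : SimpleGraph V} {S : Set V} {x y : V} (p : Γ.Walk x y)
    (h : ∀ z ∈ p.support, z ∈ S) : RC Γ S x y := by
  induction p with
  | nil => exact RC.rfl'
  | cons hadj p ih =>
    refine RC.trans' (RC.single' hadj (h _ (by simp)) (h _ (by simp))) (ih ?_)
    intro z hz
    exact h z (by simp [hz])

theorem RC.to_walk {Γ : SimpleGraph V} {S : Set V} {x y : V} (h : RC Γ S x y) (hx : x ∈ S) :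
    ∃ p : Γ.Walk x y, ∀ z ∈ p.support, z ∈ S := by
  induction h with
  | refl => exact ⟨Walk.nil, by simpa using hx⟩
  | @tail b c _ h ih =>
    obtain ⟨p, hp⟩ := ih
    refine ⟨p.concat h.1, ?_⟩
    intro z hz
    rw [Walk.support_concat] at hz
    simp only [List.mem_append, List.mem_singleton] at hz
    rcases hz with hz | rfl
    · exact hp z hz
    · exact h.2.2

/-- nonempty and connected -/
def Co (Γ : SimpleGraph V) (S : Set V) : Prop := S.Nonempty ∧ ∀ x ∈ S, ∀ y ∈ S, RC Γ S x y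

theorem co_iff (Γ : SimpleGraph V) (S : Set V) : (Γ.induce S).Connected ↔ Co Γ S := by
  constructor
  · intro h
    refine ⟨?_, ?_⟩
    · obtain ⟨x⟩ := h.nonempty
      exact ⟨x.1, x.2⟩
    · intro x hx y hy
      have h1 := h.preconnected ⟨x, hx⟩ ⟨y, hy⟩
      rw [reachable_iff_reflTransGen] at h1
      have h2 : ∀ a b : S, ReflTransGen (Γ.induce S).Adj a b → RC Γ S a.1 b.1 := by
        intro a b hab
        induction hab with
        | refl => exact RC.rfl'
        | @tail b c _ h ih => exact RC.trans' ih (RC.single' (induce_adj.1 h) b.2 c.2)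
      exact h2 _ _ h1
  · rintro ⟨⟨x0, hx0⟩, h⟩
    have : Nonempty S := ⟨⟨x0, hx0⟩⟩
    refine Connected.mk ?_
    rintro ⟨x, hx⟩ ⟨y, hy⟩
    obtain ⟨p, hp⟩ := RC.to_walk (h x hx y hy) hx
    exact ⟨p.induce S hp⟩

theorem rc_univ {Γ : SimpleGraph V} (hΓ : Γ.Connected) (x y : V) : RC Γ Set.univ x y := by
  obtain ⟨p⟩ := hΓ.preconnected x y
  exact RC.of_walk p (fun _ _ => trivial)

/-- the component of `x` in `S` -/
def comp (Γ : SimpleGraph V) (S : Set V) (x : V) : Set V := {v | RC Γ S x v}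

theorem comp_sub {Γ : SimpleGraph V} {S : Set V} {x : V} (hx : x ∈ S) : comp Γ S x ⊆ S :=
  fun _ hv => RC.mem hv hx

theorem comp_self {Γ : SimpleGraph V} {S : Set V} {x : V} : x ∈ comp Γ S x := RC.rfl'

theorem comp_step {Γ : SimpleGraph V} {S : Set V} {x a b : V} (hx : x ∈ S) (ha : a ∈ comp Γ S x)
    (hb : b ∈ S) (hab : Γ.Adj a b) : b ∈ comp Γ S x :=
  RC.trans' ha (RC.single' hab (comp_sub hx ha) hb)

theorem comp_rc {Γ : SimpleGraph V} {S : Set V} {x a : V} (ha : RC Γ S x a) :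
    RC Γ (comp Γ S x) x a := by
  induction ha with
  | refl => exact RC.rfl'
  | @tail b c h1 h ih =>
    refine RC.trans' ih (RC.single' h.1 h1 ?_)
    exact RC.trans' h1 (RC.single' h.1 h.2.1 h.2.2)

theorem comp_co {Γ : SimpleGraph V} {S : Set V} {x : V} : Co Γ (comp Γ S x) := by
  refine ⟨⟨x, comp_self⟩, ?_⟩
  intro a ha b hb
  exact RC.trans' (comp_rc ha).symm' (comp_rc hb)

/-- complement of a component of the complement of a connected set is connected. -/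
theorem comp_compl_co {Γ : SimpleGraph V} (hΓ : Γ.Connected) {M : Set V} (hM : Co Γ M) {y : V}
    (hy : y ∉ M) : Co Γ (comp Γ Mᶜ y)ᶜ := by
  obtain ⟨⟨m0, hm0⟩, hM⟩ := hM
  have hsub : M ⊆ (comp Γ Mᶜ y)ᶜ := fun m hm hm' => comp_sub (S := Mᶜ) hy hm' hm
  have key : ∀ v ∈ (comp Γ Mᶜ y)ᶜ, RC Γ (comp Γ Mᶜ y)ᶜ m0 v := by
    intro v hv
    have h := rc_univ hΓ m0 v
    have := RC.prop h (fun w => w ∈ (comp Γ Mᶜ y)ᶜ → RC Γ (comp Γ Mᶜ y)ᶜ m0 w) ?_ ?_
    · exact this hv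
    · intro a b hab _ _ ih hb
      by_cases hbM : b ∈ M
      · exact RC.mono hsub (hM m0 hm0 b hbM)
      · have ha : a ∈ (comp Γ Mᶜ y)ᶜ := by
          intro ha
          exact hb (comp_step (S := Mᶜ) hy ha hbM hab)
        exact RC.trans' (ih ha) (RC.single' hab ha hb)
    · intro _
      exact RC.rfl'
  refine ⟨⟨m0, hsub hm0⟩, ?_⟩
  intro a ha b hb
  exact RC.trans' (key a ha).symm' (key b hb)

theorem comp_edge {Γ : SimpleGraph V} {M : Set V} {y : V} (hy : y ∉ M) {a b : V}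
    (hab : Γ.Adj a b) (ha : a ∈ comp Γ Mᶜ y) (hb : b ∉ comp Γ Mᶜ y) : b ∈ M := by
  by_contra hbM
  exact hb (comp_step (S := Mᶜ) hy ha hbM hab)

theorem px1 {p q k l f g t : Prop} (h1 : ¬ (p ↔ q) ↔ (¬ (¬ (f ↔ k) ↔ ¬ (g ↔ l)) ∧ t))
    (h : k ↔ l) : (¬ (¬ (p ↔ k) ↔ ¬ (q ↔ l)) ↔ (¬ (f ↔ g) ∧ t)) := by
  by_cases hk : k <;> by_cases hl : l <;> by_cases hp : p <;> by_cases hq : q <;>
    by_cases hf : f <;> by_cases hg : g <;> simp_all

theorem px2 {p q k l f g t : Prop} (h1 : ¬ (p ↔ q) ↔ (¬ (¬ (f ↔ k) ↔ ¬ (g ↔ l)) ∧ t))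
    (h : ¬ (k ↔ l)) (h3 : ¬ (f ↔ g)) (ht : t) :
    (¬ (¬ (p ↔ k) ↔ ¬ (q ↔ l)) ↔ (¬ (f ↔ g) ∧ t)) := by
  by_cases hk : k <;> by_cases hl : l <;> by_cases hp : p <;> by_cases hq : q <;>
    by_cases hf : f <;> by_cases hg : g <;> simp_all

theorem px3 {k l f g t : Prop} (h : k ↔ l) :
    ((¬ (¬ (f ↔ k) ↔ ¬ (g ↔ l)) ∧ t) ↔ (¬ (f ↔ g) ∧ t)) := by
  by_cases hk : k <;> by_cases hl : l <;> by_cases hf : f <;> by_cases hg : g <;> simp_all

/-- symmetric edge boundary -/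
def bd (Γ : SimpleGraph V) (F : Set V) : Set (V × V) :=
  {e | Γ.Adj e.1 e.2 ∧ ¬ (e.1 ∈ F ↔ e.2 ∈ F)}

/-- The cut lemma -/
theorem cut_lemma {Γ : SimpleGraph V} (hΓ : Γ.Connected) (t : V → Prop) :
    ∀ (n : ℕ) (F : Set V), (bd Γ F).Finite → (bd Γ F).ncard ≤ n →
      (∀ K : Set V, Co Γ K → Co Γ Kᶜ → bd Γ K ⊆ bd Γ F →
        ∀ e ∈ bd Γ K, ∀ e' ∈ bd Γ K, (t e.1 ↔ t e'.1)) →
      ∃ X : Set V, ∀ x y, Γ.Adj x y → (¬ (x ∈ X ↔ y ∈ X) ↔ (¬ (x ∈ F ↔ y ∈ F) ∧ t x)) := by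
  intro n
  induction n with
  | zero =>
    intro F hfin hcard hmono
    have hemp : bd Γ F = ∅ := by
      rw [← Set.ncard_eq_zero hfin]; omega
    refine ⟨∅, ?_⟩
    intro x y hxy
    have : (x, y) ∉ bd Γ F := by rw [hemp]; simp
    constructor
    · intro h; exact absurd (by simp) h
    · rintro ⟨h, _⟩
      exact absurd ⟨hxy, h⟩ this
  | succ n ih =>
    intro F hfin hcard hmono
    by_cases hemp : bd Γ F = ∅
    · refine ⟨∅, ?_⟩
      intro x y hxy
      have : (x, y) ∉ bd Γ F := by rw [hemp]; simp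
      constructor
      · intro h; exact absurd (by simp) h
      · rintro ⟨h, _⟩
        exact absurd ⟨hxy, h⟩ this
    · have hne : ∃ x y, Γ.Adj x y ∧ x ∈ F ∧ y ∉ F := by
        obtain ⟨⟨x, y⟩, hxy⟩ := Set.nonempty_iff_ne_empty.mpr hemp
        obtain ⟨h1, h2⟩ := hxy
        simp only at h1 h2
        by_cases hx : x ∈ F
        · refine ⟨x, y, h1, hx, ?_⟩
          tauto
        · refine ⟨y, x, h1.symm, ?_, hx⟩
          tauto
      obtain ⟨x, y, hxy, hxF, hyF⟩ := hne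
      set C := comp Γ F x with hC
      have hCF : C ⊆ F := comp_sub hxF
      have hyC : y ∉ C := fun h => hyF (hCF h)
      set K := comp Γ Cᶜ y with hK
      have hKco : Co Γ K := comp_co
      have hKcco : Co Γ Kᶜ := comp_compl_co hΓ comp_co hyC
      have hKC : ∀ a b, Γ.Adj a b → a ∈ K → b ∉ K → b ∈ C ∧ a ∉ F := by
        intro a b hab ha hb
        have hbC : b ∈ C := comp_edge hyC hab ha hb
        refine ⟨hbC, ?_⟩
        intro haF
        have : a ∈ C := comp_step hxF hbC haF hab.symm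
        exact comp_sub (S := Cᶜ) hyC ha this
      have hsub : bd Γ K ⊆ bd Γ F := by
        rintro ⟨a, b⟩ ⟨hab, hne⟩
        simp only at hab hne
        refine ⟨hab, ?_⟩
        simp only
        by_cases ha : a ∈ K
        · have hb : b ∉ K := by tauto
          obtain ⟨h1, h2⟩ := hKC a b hab ha hb
          have := hCF h1
          tauto
        · have hb : b ∈ K := by tauto
          obtain ⟨h1, h2⟩ := hKC b a hab.symm hb ha
          have := hCF h1
          tauto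
      set F1 : Set V := {v | ¬ (v ∈ F ↔ v ∈ K)} with hF1
      have hbd1 : bd Γ F1 = bd Γ F \ bd Γ K := by
        ext ⟨a, b⟩
        have hs : (a, b) ∈ bd Γ K → (a, b) ∈ bd Γ F := fun h => hsub h
        simp only [bd, Set.mem_ofPred_eq, Set.mem_sdiff, hF1] at hs ⊢
        tauto
      have hyK : y ∈ K := comp_self
      have hxC : x ∈ C := comp_self
      have hxK : x ∉ K := fun h => comp_sub (S := Cᶜ) hyC h hxC
      have hxyK : (x, y) ∈ bd Γ K := by
        refine ⟨hxy, ?_⟩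
        simp only
        tauto
      have hlt : (bd Γ F1).ncard < (bd Γ F).ncard := by
        rw [hbd1]
        refine Set.ncard_lt_ncard ?_ hfin
        refine ⟨Set.sdiff_subset, ?_⟩
        intro h
        exact (h (hsub hxyK)).2 hxyK
      have hfin1 : (bd Γ F1).Finite := by
        rw [hbd1]; exact hfin.subset Set.sdiff_subset
      obtain ⟨X1, hX1⟩ := ih F1 hfin1 (by omega) (by
        intro K' h1 h2 h3
        refine hmono K' h1 h2 (h3.trans ?_)
        rw [hbd1]; exact Set.sdiff_subset)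
      have hKt : ∀ a b, Γ.Adj a b → ¬ (a ∈ K ↔ b ∈ K) → (t a ↔ t x) := by
        intro a b hab hne
        exact hmono K hKco hKcco hsub (a, b) ⟨hab, hne⟩ (x, y) hxyK
      by_cases htx : t x
      · refine ⟨{v | ¬ (v ∈ X1 ↔ v ∈ K)}, ?_⟩
        intro a b hab
        have h1 := hX1 a b hab
        have h2 := hKt a b hab
        have h3 : ¬ (a ∈ K ↔ b ∈ K) → ¬ (a ∈ F ↔ b ∈ F) := fun h => (hsub ⟨hab, h⟩ : (a, b) ∈ bd Γ F).2
        simp only [hF1, Set.mem_ofPred_eq] at h1 ⊢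
        by_cases hab2 : (a ∈ K ↔ b ∈ K)
        · exact px1 h1 hab2
        · exact px2 h1 hab2 (h3 hab2) ((h2 hab2).mpr htx)
      · refine ⟨X1, ?_⟩
        intro a b hab
        have h1 := hX1 a b hab
        have h2 := hKt a b hab
        have h3 : ¬ (a ∈ K ↔ b ∈ K) → ¬ (a ∈ F ↔ b ∈ F) := fun h => (hsub ⟨hab, h⟩ : (a, b) ∈ bd Γ F).2
        rw [h1]
        simp only [hF1, Set.mem_ofPred_eq]
        by_cases hab2 : (a ∈ K ↔ b ∈ K)
        · exact px3 hab2
        · have h4 : ¬ t a := fun h => htx ((h2 hab2).mp h)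
          simp [h4]

/-! ### Metric lemmas -/

theorem first_exit {Γ : SimpleGraph V} (hΓ : Γ.Connected) {K : Set V} {x y : V}
    (p : Γ.Walk x y) (hx : x ∉ K) (hy : y ∈ K) :
    ∃ o k, o ∉ K ∧ k ∈ K ∧ Γ.Adj o k ∧ Γ.dist x o + 1 + Γ.dist k y ≤ p.length := by
  induction p with
  | nil => exact absurd hy hx
  | @cons a b c hadj p ih =>
    by_cases hb : b ∈ K
    · refine ⟨a, b, hx, hb, hadj, ?_⟩
      have := dist_le p
      simp only [dist_self, Walk.length_cons]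
      omega
    · obtain ⟨o, k, h1, h2, h3, h4⟩ := ih hb hy
      refine ⟨o, k, h1, h2, h3, ?_⟩
      have h5 := hΓ.dist_triangle (u := a) (v := b) (w := o)
      have h6 : Γ.dist a b = 1 := dist_eq_one_iff_adj.mpr hadj
      simp only [Walk.length_cons]
      omega

theorem dist_adj {Γ : SimpleGraph V} {a b : V} (h : Γ.Adj a b) : Γ.dist a b = 1 :=
  dist_eq_one_iff_adj.mpr h

theorem crossing {Γ : SimpleGraph V} (hΓ : Γ.Connected) {F : Set V} {v w : V} {n : ℕ}
    (hn : Γ.dist v w ≤ n) (hvw : ¬ (v ∈ F ↔ w ∈ F)) :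
    ∃ o k, o ∉ F ∧ k ∈ F ∧ Γ.Adj o k ∧ Γ.dist v o ≤ n ∧ Γ.dist w o ≤ n := by
  have key : ∀ v w, Γ.dist v w ≤ n → v ∉ F → w ∈ F →
      ∃ o k, o ∉ F ∧ k ∈ F ∧ Γ.Adj o k ∧ Γ.dist v o ≤ n ∧ Γ.dist w o ≤ n := by
    intro v w hn hv hw
    obtain ⟨p, hp⟩ := hΓ.exists_walk_length_eq_dist v w
    obtain ⟨o, k, h1, h2, h3, h4⟩ := first_exit hΓ p hv hw
    refine ⟨o, k, h1, h2, h3, by omega, ?_⟩
    have h5 := hΓ.dist_triangle (u := w) (v := k) (w := o)
    have h6 := dist_adj h3.symm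
    have h7 := Γ.dist_comm (u := w) (v := k)
    omega
  by_cases hv : v ∈ F
  · have hw : w ∉ F := by tauto
    obtain ⟨o, k, h1, h2, h3, h4, h5⟩ := key w v (by rw [Γ.dist_comm]; exact hn) hw hv
    exact ⟨o, k, h1, h2, h3, h5, h4⟩
  · have hw : w ∈ F := by tauto
    exact key v w hn hv hw

theorem walk_interval {Γ : SimpleGraph V} (hΓ : Γ.Connected) {x y : V} (p : Γ.Walk x y) :
    RC Γ {z | Γ.dist x z + Γ.dist z y ≤ p.length} x y := by
  induction p with
  | nil => exact RC.rfl'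
  | @cons a b c hadj p ih =>
    have h6 := dist_adj hadj
    refine RC.trans' (RC.single' hadj ?_ ?_) (RC.mono ?_ ih)
    · have := dist_le (Walk.cons hadj p)
      simpa using this
    · have := dist_le p
      simp only [Walk.length_cons, Set.mem_ofPred_eq]
      omega
    · intro z hz
      simp only [Walk.length_cons, Set.mem_ofPred_eq] at hz ⊢
      have h5 := hΓ.dist_triangle (u := a) (v := b) (w := z)
      omega

theorem interval {Γ : SimpleGraph V} (hΓ : Γ.Connected) (x y : V) :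
    RC Γ {z | Γ.dist x z + Γ.dist z y ≤ Γ.dist x y} x y := by
  obtain ⟨p, hp⟩ := hΓ.exists_walk_length_eq_dist x y
  rw [← hp]
  exact walk_interval hΓ p

theorem walk_descend {Γ : SimpleGraph V} {G : Set V} {z g : V} (L : ℕ)
    (p : Γ.Walk z g) (hz : z ∉ G) (hg : g ∈ G) (hL : p.length ≤ L) :
    ∃ o k, o ∉ G ∧ k ∈ G ∧ Γ.Adj o k ∧ RC Γ {w | w ∉ G ∧ Γ.dist w g ≤ L} z o := by
  induction p with
  | nil => exact absurd hg hz
  | @cons a b c hadj p ih =>
    have h0 := dist_le (Walk.cons hadj p)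
    have h1 := dist_le p
    simp only [Walk.length_cons] at hL h0
    by_cases hb : b ∈ G
    · exact ⟨a, b, hz, hb, hadj, RC.rfl'⟩
    · obtain ⟨o, k, h1, h2, h3, h4⟩ := ih hb hg (by omega)
      refine ⟨o, k, h1, h2, h3, RC.trans' (RC.single' hadj ⟨hz, ?_⟩ ⟨hb, ?_⟩) h4⟩
      · omega
      · omega

theorem ball_finite {Γ : SimpleGraph V} (hΓ : Γ.Connected)
    (lf : ∀ v, (Γ.neighborSet v).Finite) (x : V) (n : ℕ) : {y | Γ.dist x y ≤ n}.Finite := by
  induction n with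
  | zero =>
    refine (Set.finite_singleton x).subset ?_
    intro y hy
    simp only [Set.mem_ofPred_eq, nonpos_iff_eq_zero] at hy
    rw [hΓ.dist_eq_zero_iff] at hy
    simp [hy]
  | succ n ih =>
    have h1 : (⋃ z ∈ {y | Γ.dist x y ≤ n}, Γ.neighborSet z).Finite :=
      ih.biUnion (fun z _ => lf z)
    refine (ih.union h1).subset ?_
    intro y hy
    by_cases hy' : Γ.dist x y ≤ n
    · left; exact hy'
    · right
      obtain ⟨p, hp⟩ := hΓ.exists_walk_length_eq_dist y x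
      have hc := Γ.dist_comm (u := x) (v := y)
      simp only [Set.mem_ofPred_eq] at hy
      cases p with
      | nil =>
        have h0 : Γ.dist x x = 0 := dist_self
        omega
      | @cons _ b _ hadj p =>
        simp only [Walk.length_cons] at hp
        have h2 := dist_le p
        have h3 := Γ.dist_comm (u := x) (v := b)
        refine Set.mem_biUnion (x := b) ?_ hadj.symm
        simp only [Set.mem_ofPred_eq]
        omega

theorem dist_map_le {V' : Type v} {Γ : SimpleGraph V} {Γ' : SimpleGraph V'}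
    (hΓ : Γ.Connected) (hΓ' : Γ'.Connected) {f : V → V'} {c : ℕ}
    (h1 : ∀ x y, Γ.Adj x y → Γ'.dist (f x) (f y) ≤ c) (x y : V) :
    Γ'.dist (f x) (f y) ≤ c * Γ.dist x y := by
  have key : ∀ {x y : V} (p : Γ.Walk x y), Γ'.dist (f x) (f y) ≤ c * p.length := by
    intro x y p
    induction p with
    | nil => simp
    | @cons a b d hadj p ih =>
      have h2 := hΓ'.dist_triangle (u := f a) (v := f b) (w := f d)
      have h3 := h1 a b hadj
      simp only [Walk.length_cons, mul_add, mul_one]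
      omega
  obtain ⟨p, hp⟩ := hΓ.exists_walk_length_eq_dist x y
  rw [← hp]
  exact key p

/-- finite form of the boundary condition -/
def CBfin (Γ : SimpleGraph V) (r : ℕ) : Prop :=
  ∀ K : Set V, Co Γ K → Co Γ Kᶜ → (bd Γ K).Finite → Co Γ (nbhd Γ (r + 1) K \ K)

/-- outer boundary -/
def ob (Γ : SimpleGraph V) (F : Set V) : Set V := {o | o ∉ F ∧ ∃ k ∈ F, Γ.Adj o k}

/-! ### Transfer through a quasi-isometry -/

section Transfer

variable {V' : Type v} {Γ' : SimpleGraph V'}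

/-- `v` is near `A` -/
def near (Γ' : SimpleGraph V') (A : Set V') (R : ℕ) (v : V') : Prop := ∃ a ∈ A, Γ'.dist v a ≤ R

/-- the parity function -/
def sg (Γ' : SimpleGraph V') (F' A : Set V') (R : ℕ) (v w : V') : Prop :=
  ¬ (v ∈ F' ↔ w ∈ F') ∧ near Γ' A R v

theorem near_symm (hΓ' : Γ'.Connected) {F' A : Set V'} {R : ℕ}
    (hfar : ∀ a ∈ A, ∀ b ∈ ob Γ' F', b ∉ A → 2 * R < Γ'.dist a b)
    {v w : V'} (hvw : Γ'.dist v w ≤ R) (hx : ¬ (v ∈ F' ↔ w ∈ F')) :
    near Γ' A R v ↔ near Γ' A R w := by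
  obtain ⟨o, k, h1, h2, h3, h4, h5⟩ := crossing hΓ' hvw hx
  have ho : o ∈ ob Γ' F' := ⟨h1, k, h2, h3⟩
  by_cases hoA : o ∈ A
  · constructor
    · intro _; exact ⟨o, hoA, h5⟩
    · intro _; exact ⟨o, hoA, h4⟩
  · constructor
    · rintro ⟨a, ha, h⟩
      have h6 := hfar a ha o ho hoA
      have h7 := hΓ'.dist_triangle (u := a) (v := v) (w := o)
      have h8 := Γ'.dist_comm (u := a) (v := v)
      omega
    · rintro ⟨a, ha, h⟩
      have h6 := hfar a ha o ho hoA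
      have h7 := hΓ'.dist_triangle (u := a) (v := w) (w := o)
      have h8 := Γ'.dist_comm (u := a) (v := w)
      omega

theorem sg_symm (hΓ' : Γ'.Connected) {F' A : Set V'} {R : ℕ}
    (hfar : ∀ a ∈ A, ∀ b ∈ ob Γ' F', b ∉ A → 2 * R < Γ'.dist a b)
    {v w : V'} (hvw : Γ'.dist v w ≤ R) : sg Γ' F' A R v w ↔ sg Γ' F' A R w v := by
  unfold sg
  by_cases hx : (v ∈ F' ↔ w ∈ F')
  · have : (w ∈ F' ↔ v ∈ F') := hx.symm
    simp [hx]
  · have := near_symm hΓ' hfar hvw hx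
    rw [this]
    constructor
    · rintro ⟨h, h'⟩; exact ⟨fun h'' => h h''.symm, h'⟩
    · rintro ⟨h, h'⟩; exact ⟨fun h'' => h h''.symm, h'⟩

theorem sg_add (hΓ' : Γ'.Connected) {F' A : Set V'} {R : ℕ}
    (hfar : ∀ a ∈ A, ∀ b ∈ ob Γ' F', b ∉ A → 2 * R < Γ'.dist a b)
    {u v w : V'} (huv : Γ'.dist u v ≤ R) (hvw : Γ'.dist v w ≤ R) (huw : Γ'.dist u w ≤ R) :
    sg Γ' F' A R u w ↔ ¬ (sg Γ' F' A R u v ↔ sg Γ' F' A R v w) := by
  have h1 := near_symm hΓ' hfar huv
  have h2 := near_symm hΓ' hfar hvw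
  have h3 := near_symm hΓ' hfar huw
  unfold sg
  by_cases hu : u ∈ F' <;> by_cases hv : v ∈ F' <;> by_cases hw : w ∈ F' <;>
    simp_all

theorem transfer {Γ : SimpleGraph V} (hΓ : Γ.Connected) (hΓ' : Γ'.Connected)
    (lf' : ∀ v, (Γ'.neighborSet v).Finite)
    {f : V → V'} {g : V' → V} {c : ℕ}
    (h1 : ∀ x y, Γ.Adj x y → Γ'.dist (f x) (f y) ≤ c)
    (h2 : ∀ w, Γ'.dist w (f (g w)) ≤ c)
    (h3 : ∀ v w, Γ'.Adj v w → Γ.dist (g v) (g w) ≤ c)
    (h4 : ∀ v', (f ⁻¹' {v'}).Finite)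
    {r : ℕ} (hr : CBfin Γ r) {F' : Set V'} (hF : Co Γ' F') (hFc : Co Γ' F'ᶜ)
    (hbd : (bd Γ' F').Finite) {A : Set V'} (hA : A ⊆ ob Γ' F') (hAne : A.Nonempty)
    (hBne : (ob Γ' F' \ A).Nonempty) :
    ∃ a ∈ A, ∃ b ∈ ob Γ' F' \ A, Γ'.dist a b ≤ 2 * (c + 1) ^ 2 + c * (2 * r + 2) := by
  by_contra hcon
  push Not at hcon
  obtain ⟨R, hR⟩ : ∃ R : ℕ, R = (c + 1) ^ 2 := ⟨_, rfl⟩
  rw [← hR] at hcon
  have hRc : c ≤ R := by rw [hR]; nlinarith
  have hRc2 : c * c ≤ R := by rw [hR]; nlinarith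
  have hRc1 : c + 1 ≤ R := by rw [hR]; nlinarith
  have hfar : ∀ a ∈ A, ∀ b ∈ ob Γ' F', b ∉ A → 2 * R < Γ'.dist a b := by
    intro a ha b hb hbA
    have := hcon a ha b ⟨hb, hbA⟩
    have h5 : 0 ≤ c * (2 * r + 2) := Nat.zero_le _
    omega
  obtain ⟨F, hFdef⟩ : ∃ F : Set V, F = f ⁻¹' F' := ⟨_, rfl⟩
  have hmemF : ∀ x, x ∈ F ↔ f x ∈ F' := by intro x; rw [hFdef]; rfl
  -- finiteness of the boundary of `F`
  have hobfin : (ob Γ' F').Finite := by
    refine (hbd.image Prod.fst).subset ?_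
    rintro o ⟨ho, k, hk, hadj⟩
    refine ⟨(o, k), ⟨hadj, ?_⟩, rfl⟩
    simp only
    tauto
  have hWfin : (⋃ o ∈ ob Γ' F', {w | Γ'.dist o w ≤ c}).Finite :=
    hobfin.biUnion (fun o _ => ball_finite hΓ' lf' o c)
  have hFW : ∀ x y, Γ.Adj x y → ¬ (x ∈ F ↔ y ∈ F) →
      f x ∈ (⋃ o ∈ ob Γ' F', {w | Γ'.dist o w ≤ c}) := by
    intro x y hxy hne
    rw [hmemF, hmemF] at hne
    obtain ⟨o, k, e1, e2, e3, e4, e5⟩ := crossing hΓ' (h1 x y hxy) hne
    refine Set.mem_biUnion (x := o) ⟨e1, k, e2, e3⟩ ?_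
    simp only [Set.mem_ofPred_eq]
    rw [Γ'.dist_comm]; exact e4
  have hpre : (f ⁻¹' (⋃ o ∈ ob Γ' F', {w | Γ'.dist o w ≤ c})).Finite := by
    have : f ⁻¹' (⋃ o ∈ ob Γ' F', {w | Γ'.dist o w ≤ c}) =
        ⋃ w ∈ (⋃ o ∈ ob Γ' F', {w | Γ'.dist o w ≤ c}), f ⁻¹' {w} := by
      ext x; simp
    rw [this]
    exact hWfin.biUnion (fun w _ => h4 w)
  have hbdF : (bd Γ F).Finite := by
    refine (hpre.prod hpre).subset ?_
    rintro ⟨x, y⟩ ⟨hxy, hne⟩
    refine ⟨hFW x y hxy hne, hFW y x hxy.symm ?_⟩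
    intro h; exact hne h.symm
  have hlip : ∀ x y, Γ'.dist (f x) (f y) ≤ c * Γ.dist x y := dist_map_le hΓ hΓ' h1
  -- monochromatic
  have hmono : ∀ K : Set V, Co Γ K → Co Γ Kᶜ → bd Γ K ⊆ bd Γ F →
      ∀ e ∈ bd Γ K, ∀ e' ∈ bd Γ K, (near Γ' A R (f e.1) ↔ near Γ' A R (f e'.1)) := by
    intro K hK hKc hsub
    have hZ := hr K hK hKc (hbdF.subset hsub)
    have hjump1 : ∀ q ∈ ob Γ K, ∀ q' ∈ ob Γ K, Γ.dist q q' ≤ 2 * r + 1 →
        near Γ' A R (f q) → near Γ' A R (f q') := by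
      rintro q _ q' ⟨hq', k', hk', hadj'⟩ hd ⟨a, ha, had⟩
      have hb : (q', k') ∈ bd Γ F := by
        refine hsub ⟨hadj', ?_⟩
        simp only
        tauto
      have hne : ¬ (q' ∈ F ↔ k' ∈ F) := hb.2
      rw [hmemF, hmemF] at hne
      obtain ⟨o, k, e1, e2, e3, e4, e5⟩ := crossing hΓ' (h1 q' k' hadj') hne
      have ho : o ∈ ob Γ' F' := ⟨e1, k, e2, e3⟩
      by_cases hoA : o ∈ A
      · exact ⟨o, hoA, by omega⟩
      · exfalso
        have e6 := hcon a ha o ⟨ho, hoA⟩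
        have e7 := hΓ'.dist_triangle (u := a) (v := f q) (w := o)
        have e8 := hΓ'.dist_triangle (u := f q) (v := f q') (w := o)
        have e9 := Γ'.dist_comm (u := a) (v := f q)
        have e10 := hlip q q'
        have e11 : c * Γ.dist q q' ≤ c * (2 * r + 1) := Nat.mul_le_mul_left c hd
        have e12 : c * (2 * r + 2) = c * (2 * r + 1) + c := by ring
        omega
    have hjump : ∀ q ∈ ob Γ K, ∀ q' ∈ ob Γ K, Γ.dist q q' ≤ 2 * r + 1 →
        (near Γ' A R (f q) ↔ near Γ' A R (f q')) := by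
      intro q hq q' hq' hd
      refine ⟨hjump1 q hq q' hq' hd, hjump1 q' hq' q hq ?_⟩
      rw [Γ.dist_comm]; exact hd
    have hZq : ∀ z ∈ nbhd Γ (r + 1) K \ K, ∃ q ∈ ob Γ K, Γ.dist z q ≤ r := by
      rintro z ⟨⟨y, hy, hzy⟩, hzK⟩
      obtain ⟨p, hp⟩ := hΓ.exists_walk_length_eq_dist z y
      obtain ⟨o, k, e1, e2, e3, e4⟩ := first_exit hΓ p hzK hy
      exact ⟨o, ⟨e1, k, e2, e3⟩, by omega⟩
    have hobZ : ∀ q ∈ ob Γ K, q ∈ nbhd Γ (r + 1) K \ K := by
      rintro q ⟨hq, k, hk, hadj⟩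
      refine ⟨⟨k, hk, ?_⟩, hq⟩
      rw [dist_adj hadj]; omega
    have hall : ∀ q ∈ ob Γ K, ∀ q' ∈ ob Γ K, (near Γ' A R (f q) ↔ near Γ' A R (f q')) := by
      intro q hq q' hq'
      have hrc := hZ.2 q (hobZ q hq) q' (hobZ q' hq')
      have := RC.prop hrc (fun z => ∃ u ∈ ob Γ K, Γ.dist z u ≤ r ∧
        (near Γ' A R (f q) ↔ near Γ' A R (f u))) ?_ ?_
      · obtain ⟨u, hu, hd, hn⟩ := this
        rw [hn]
        refine hjump u hu q' hq' ?_
        rw [Γ.dist_comm]; omega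
      · rintro a b hab _ hb ⟨u, hu, hd, hn⟩
        obtain ⟨u', hu', hd'⟩ := hZq b hb
        refine ⟨u', hu', hd', ?_⟩
        rw [hn]
        refine hjump u hu u' hu' ?_
        have e1 := hΓ.dist_triangle (u := u) (v := a) (w := u')
        have e2 := hΓ.dist_triangle (u := a) (v := b) (w := u')
        have e3 := Γ.dist_comm (u := u) (v := a)
        have e4 := dist_adj hab
        omega
      · refine ⟨q, hq, ?_, Iff.rfl⟩
        rw [dist_self]; omega
    -- each edge of `bd K` has an outer endpoint with the same colour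
    have hedge : ∀ e ∈ bd Γ K, ∃ q ∈ ob Γ K, (near Γ' A R (f e.1) ↔ near Γ' A R (f q)) := by
      rintro ⟨x, y⟩ he
      have heF : (x, y) ∈ bd Γ F := hsub he
      obtain ⟨hxy, hne⟩ := he
      simp only at hxy hne
      by_cases hx : x ∈ K
      · have hy : y ∉ K := by tauto
        refine ⟨y, ⟨hy, x, hx, hxy.symm⟩, ?_⟩
        have hne2 : ¬ (x ∈ F ↔ y ∈ F) := heF.2
        rw [hmemF, hmemF] at hne2
        exact near_symm hΓ' hfar ((h1 x y hxy).trans hRc) hne2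
      · have hy : y ∈ K := by tauto
        exact ⟨x, ⟨hx, y, hy, hxy⟩, Iff.rfl⟩
    intro e he e' he'
    obtain ⟨q, hq, e1⟩ := hedge e he
    obtain ⟨q', hq', e2⟩ := hedge e' he'
    rw [e1, e2]
    exact hall q hq q' hq'
  obtain ⟨X, hX⟩ := cut_lemma hΓ (fun x => near Γ' A R (f x)) _ F hbdF le_rfl hmono
  have hX' : ∀ x y, Γ.Adj x y → (¬ (x ∈ X ↔ y ∈ X) ↔ sg Γ' F' A R (f x) (f y)) := by
    intro x y hxy
    rw [hX x y hxy, hmemF, hmemF]
    rfl
  -- along short walks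
  have hpath : ∀ {x y : V} (p : Γ.Walk x y), p.length ≤ c →
      (¬ (x ∈ X ↔ y ∈ X) ↔ sg Γ' F' A R (f x) (f y)) := by
    intro x y p
    induction p with
    | nil => intro _; simp [sg]
    | @cons a b d hadj p ih =>
      intro hl
      simp only [Walk.length_cons] at hl
      have e1 := hX' a b hadj
      have e2 := ih (by omega)
      have d1 : Γ'.dist (f a) (f b) ≤ R := (h1 a b hadj).trans hRc
      have d2 : Γ'.dist (f b) (f d) ≤ R := by
        refine (hlip b d).trans (le_trans ?_ hRc2)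
        exact Nat.mul_le_mul_left c ((dist_le p).trans (by omega))
      have d3 : Γ'.dist (f a) (f d) ≤ R := by
        refine (hlip a d).trans (le_trans ?_ hRc2)
        refine Nat.mul_le_mul_left c ((dist_le (Walk.cons hadj p)).trans ?_)
        simp only [Walk.length_cons]; omega
      rw [sg_add hΓ' hfar d1 d2 d3, ← e1, ← e2]
      by_cases ha : a ∈ X <;> by_cases hb : b ∈ X <;> by_cases hd : d ∈ X <;> simp_all
  have hgg : ∀ v w, Γ'.Adj v w → (¬ (g v ∈ X ↔ g w ∈ X) ↔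
      sg Γ' F' A R (f (g v)) (f (g w))) := by
    intro v w hvw
    obtain ⟨p, hp⟩ := hΓ.exists_walk_length_eq_dist (g v) (g w)
    exact hpath p (by rw [hp]; exact h3 v w hvw)
  -- the pulled-back set
  obtain ⟨X', hX'def⟩ : ∃ X' : V' → Prop, ∀ v, X' v ↔
      ¬ (g v ∈ X ↔ sg Γ' F' A R v (f (g v))) := ⟨_, fun _ => Iff.rfl⟩
  have hmain : ∀ v w, Γ'.Adj v w → (¬ (X' v ↔ X' w) ↔ sg Γ' F' A R v w) := by
    intro v w hvw
    have e1 := hgg v w hvw
    have d0 := dist_adj hvw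
    have dv := h2 v
    have dw := h2 w
    have dvw : Γ'.dist v w ≤ R := by omega
    have d1 : Γ'.dist v (f (g v)) ≤ R := by omega
    have d2 : Γ'.dist (f (g v)) (f (g w)) ≤ R := by
      refine (hlip _ _).trans (le_trans ?_ hRc2)
      exact Nat.mul_le_mul_left c (h3 v w hvw)
    have d3 : Γ'.dist v (f (g w)) ≤ R := by
      have := hΓ'.dist_triangle (u := v) (v := w) (w := f (g w))
      omega
    have d4 : Γ'.dist w (f (g w)) ≤ R := by omega
    have d5 : Γ'.dist (f (g w)) w ≤ R := by rw [Γ'.dist_comm]; exact d4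
    have a1 := sg_add hΓ' hfar d1 d2 d3
    have a2 := sg_add hΓ' hfar d3 d5 dvw
    have a3 := sg_symm hΓ' hfar d4
    rw [hX'def, hX'def, a2, a1, ← a3, ← e1]
    by_cases b1 : g v ∈ X <;> by_cases b2 : g w ∈ X <;>
      by_cases b3 : sg Γ' F' A R v (f (g v)) <;> by_cases b4 : sg Γ' F' A R w (f (g w)) <;>
      simp_all
  obtain ⟨a, haA⟩ := hAne
  obtain ⟨b, hbO, hbA⟩ := hBne
  obtain ⟨haF, ka, hka, haadj⟩ := hA haA
  obtain ⟨hbF, kb, hkb, hbadj⟩ := hbO
  have hin : ∀ v ∈ F', ∀ w ∈ F', (X' v ↔ X' w) := by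
    intro v hv w hw
    refine RC.prop (hF.2 v hv w hw) (fun z => X' v ↔ X' z) ?_ Iff.rfl
    intro p q hpq hp hq ih
    rw [ih]
    by_contra hne
    exact ((hmain p q hpq).mp hne).1 ⟨fun _ => hq, fun _ => hp⟩
  have hout : ∀ v ∈ F'ᶜ, ∀ w ∈ F'ᶜ, (X' v ↔ X' w) := by
    intro v hv w hw
    refine RC.prop (hFc.2 v hv w hw) (fun z => X' v ↔ X' z) ?_ Iff.rfl
    intro p q hpq hp hq ih
    rw [ih]
    by_contra hne
    exact ((hmain p q hpq).mp hne).1 ⟨fun h => absurd h hp, fun h => absurd h hq⟩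
  have ea : ¬ (X' a ↔ X' ka) := by
    rw [hmain a ka haadj]
    refine ⟨fun h => haF (h.mpr hka), a, haA, ?_⟩
    rw [dist_self]; omega
  have eb : (X' b ↔ X' kb) := by
    by_contra hne
    obtain ⟨_, a', ha', hd⟩ := (hmain b kb hbadj).mp hne
    have := hfar a' ha' b ⟨hbF, kb, hkb, hbadj⟩ hbA
    have hc := Γ'.dist_comm (u := a') (v := b)
    omega
  have ec := hin ka hka kb hkb
  have ed := hout a haF b hbF
  exact ea (by rw [ed, eb, ec])

end Transfer

/-! ### The annulus argument -/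

theorem annulus {Γ : SimpleGraph V} (hΓ : Γ.Connected) (lf : ∀ v, (Γ.neighborSet v).Finite)
    {D : ℕ} (hD : 1 ≤ D)
    (hT : ∀ F : Set V, Co Γ F → Co Γ Fᶜ → (bd Γ F).Finite → ∀ A ⊆ ob Γ F, A.Nonempty →
      (ob Γ F \ A).Nonempty → ∃ a ∈ A, ∃ b ∈ ob Γ F \ A, Γ.dist a b ≤ D) :
    CBfin Γ (2 * D) := by
  intro G hG hGc hbd
  obtain ⟨M, hMdef⟩ : ∃ M : Set V, M = nbhd Γ D G := ⟨_, rfl⟩
  obtain ⟨Z, hZdef⟩ : ∃ Z : Set V, Z = nbhd Γ (2 * D + 1) G \ G := ⟨_, rfl⟩
  rw [← hZdef]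
  have hmemM : ∀ x, x ∈ M ↔ ∃ g ∈ G, Γ.dist x g ≤ D := by intro x; rw [hMdef]; rfl
  have hmemZ : ∀ x, x ∈ Z ↔ (∃ g ∈ G, Γ.dist x g ≤ 2 * D + 1) ∧ x ∉ G := by
    intro x; rw [hZdef]; rfl
  have hGM : G ⊆ M := by
    intro g hg
    rw [hmemM]
    exact ⟨g, hg, by rw [dist_self]; omega⟩
  have hMG : ∀ m ∈ M, ∃ g ∈ G, RC Γ M m g := by
    intro m hm
    obtain ⟨g, hg, hd⟩ := (hmemM m).mp hm
    refine ⟨g, hg, RC.mono ?_ (interval hΓ m g)⟩
    intro z hz
    simp only [Set.mem_ofPred_eq] at hz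
    rw [hmemM]
    exact ⟨g, hg, by omega⟩
  have hMco : Co Γ M := by
    refine ⟨hG.1.mono hGM, ?_⟩
    intro a ha b hb
    obtain ⟨ga, hga, h1⟩ := hMG a ha
    obtain ⟨gb, hgb, h2⟩ := hMG b hb
    exact RC.trans' h1 (RC.trans' (RC.mono hGM (hG.2 ga hga gb hgb)) h2.symm')
  have hobfin : (ob Γ G).Finite := by
    refine (hbd.image Prod.fst).subset ?_
    rintro o ⟨ho, k, hk, hadj⟩
    refine ⟨(o, k), ⟨hadj, ?_⟩, rfl⟩
    simp only
    tauto
  have hMGfin : (M \ G).Finite := by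
    refine (hobfin.biUnion (fun o _ => ball_finite hΓ lf o D)).subset ?_
    rintro m ⟨hm, hmG⟩
    obtain ⟨g, hg, hd⟩ := (hmemM m).mp hm
    obtain ⟨p, hp⟩ := hΓ.exists_walk_length_eq_dist m g
    obtain ⟨o, k, h1, h2, h3, h4⟩ := first_exit hΓ p hmG hg
    refine Set.mem_biUnion (x := o) ⟨h1, k, h2, h3⟩ ?_
    simp only [Set.mem_ofPred_eq]
    rw [Γ.dist_comm]; omega
  -- a neighbour in `M` of a point outside `M` is outside `G`
  have hnG : ∀ u m, Γ.Adj u m → u ∉ M → m ∉ G := by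
    intro u m hum hu hm
    apply hu
    rw [hmemM]
    exact ⟨m, hm, by rw [dist_adj hum]; omega⟩
  have hoZ : ∀ u m, Γ.Adj u m → u ∉ M → m ∈ M → ∃ g ∈ G, Γ.dist u g ≤ D + 1 := by
    intro u m hum hu hm
    obtain ⟨g, hg, hd⟩ := (hmemM m).mp hm
    have h1 := hΓ.dist_triangle (u := u) (v := m) (w := g)
    have h2 := dist_adj hum
    exact ⟨g, hg, by omega⟩
  have hMZ : ∀ m ∈ M, m ∉ G → m ∈ Z := by
    intro m hm hmG
    obtain ⟨g, hg, hd⟩ := (hmemM m).mp hm
    rw [hmemZ]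
    exact ⟨⟨g, hg, by omega⟩, hmG⟩
  have hoZ' : ∀ u m, Γ.Adj u m → u ∉ M → m ∈ M → u ∈ Z := by
    intro u m hum hu hm
    obtain ⟨g, hg, hd⟩ := hoZ u m hum hu hm
    rw [hmemZ]
    exact ⟨⟨g, hg, by omega⟩, fun h => hu (hGM h)⟩
  -- outer boundary of the complement of a component
  have hobU : ∀ u, u ∉ M → ∀ o ∈ ob Γ (comp Γ Mᶜ u)ᶜ, o ∉ M ∧ ∃ m ∈ M, Γ.Adj o m := by
    rintro u hu o ⟨ho, k, hk, hadj⟩
    have ho' : o ∈ comp Γ Mᶜ u := by
      by_contra h; exact ho h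
    exact ⟨comp_sub (S := Mᶜ) hu ho', k, comp_edge hu hadj ho' hk, hadj⟩
  have hone : ∀ u, u ∉ M → ∀ m1, (∃ o ∈ ob Γ (comp Γ Mᶜ u)ᶜ, RC Γ Z m1 o) →
      ∀ o ∈ ob Γ (comp Γ Mᶜ u)ᶜ, RC Γ Z m1 o := by
    rintro u hu m1 ⟨o1, ho1, hr1⟩
    by_contra hcon
    push Not at hcon
    obtain ⟨o2, ho2, hr2⟩ := hcon
    have hU1 : Co Γ (comp Γ Mᶜ u)ᶜ := comp_compl_co hΓ hMco hu
    have hU2 : Co Γ (comp Γ Mᶜ u)ᶜᶜ := by rw [compl_compl]; exact comp_co
    have hW : (⋃ m ∈ M \ G, {w | Γ.dist m w ≤ 1}).Finite :=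
      hMGfin.biUnion (fun m _ => ball_finite hΓ lf m 1)
    have hfin : (bd Γ (comp Γ Mᶜ u)ᶜ).Finite := by
      have hkey : ∀ x y, Γ.Adj x y → x ∈ comp Γ Mᶜ u → y ∉ comp Γ Mᶜ u →
          x ∈ (⋃ m ∈ M \ G, {w | Γ.dist m w ≤ 1}) ∧ y ∈ (⋃ m ∈ M \ G, {w | Γ.dist m w ≤ 1}) := by
        intro x y hxy hx hy
        have hyM : y ∈ M := comp_edge hu hxy hx hy
        have hxM : x ∉ M := comp_sub (S := Mᶜ) hu hx
        have hyG : y ∉ G := hnG x y hxy hxM
        refine ⟨Set.mem_biUnion (x := y) ⟨hyM, hyG⟩ ?_, Set.mem_biUnion (x := y) ⟨hyM, hyG⟩ ?_⟩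
        · simp only [Set.mem_ofPred_eq]
          rw [dist_adj hxy.symm]
        · simp only [Set.mem_ofPred_eq]
          rw [dist_self]; omega
      refine (hW.prod hW).subset ?_
      rintro ⟨x, y⟩ ⟨hxy, hne⟩
      simp only [Set.mem_compl_iff] at hxy hne
      by_cases hx : x ∈ comp Γ Mᶜ u
      · have hy : y ∉ comp Γ Mᶜ u := by tauto
        exact hkey x y hxy hx hy
      · have hy : y ∈ comp Γ Mᶜ u := by tauto
        exact (hkey y x hxy.symm hy hx).symm
    obtain ⟨a, ha, b, hb, hd⟩ := hT _ hU1 hU2 hfin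
      {o | o ∈ ob Γ (comp Γ Mᶜ u)ᶜ ∧ RC Γ Z m1 o} (fun o ho => ho.1) ⟨o1, ho1, hr1⟩
      ⟨o2, ho2, fun h => hr2 h.2⟩
    obtain ⟨hbO, hbn⟩ := hb
    apply hbn
    refine ⟨hbO, RC.trans' ha.2 ?_⟩
    refine RC.mono ?_ (interval hΓ a b)
    intro z hz
    simp only [Set.mem_ofPred_eq] at hz
    obtain ⟨haM, m, hm, ham⟩ := hobU u hu a ha.1
    obtain ⟨g, hg, hdg⟩ := hoZ a m ham haM hm
    rw [hmemZ]
    refine ⟨⟨g, hg, ?_⟩, ?_⟩
    · have h1 := hΓ.dist_triangle (u := z) (v := a) (w := g)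
      have h2 := Γ.dist_comm (u := z) (v := a)
      omega
    · intro hzG
      apply haM
      rw [hmemM]
      exact ⟨z, hzG, by omega⟩
  have hobG : ∀ o ∈ ob Γ G, o ∈ M ∧ o ∉ G := by
    rintro o ⟨ho, k, hk, hadj⟩
    refine ⟨?_, ho⟩
    rw [hmemM]
    exact ⟨k, hk, by rw [dist_adj hadj]; omega⟩
  have hobob : ∀ o ∈ ob Γ G, ∀ o' ∈ ob Γ G, RC Γ Z o o' := by
    intro o ho o' ho'
    obtain ⟨hoM, hoG⟩ := hobG o ho
    obtain ⟨hoM', hoG'⟩ := hobG o' ho'
    have := RC.prop (hGc.2 o hoG o' hoG') (fun v => (v ∈ M → RC Γ Z o v) ∧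
      (v ∉ M → ∀ q ∈ ob Γ (comp Γ Mᶜ v)ᶜ, RC Γ Z o q)) ?_ ?_
    · exact this.1 hoM'
    · rintro a b hab haG hbG ⟨h1, h2⟩
      by_cases ha : a ∈ M
      · by_cases hb : b ∈ M
        · refine ⟨fun _ => ?_, fun h => absurd hb h⟩
          exact RC.trans' (h1 ha) (RC.single' hab (hMZ a ha haG) (hMZ b hb hbG))
        · refine ⟨fun h => absurd h hb, fun _ => ?_⟩
          refine hone b hb o ⟨b, ?_, ?_⟩
          · refine ⟨fun h => h comp_self, a, ?_, hab.symm⟩
            intro h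
            exact comp_sub (S := Mᶜ) hb h ha
          · exact RC.trans' (h1 ha) (RC.single' hab (hMZ a ha haG) (hoZ' b a hab.symm hb ha))
      · by_cases hb : b ∈ M
        · refine ⟨fun _ => ?_, fun h => absurd hb h⟩
          have h3 : a ∈ ob Γ (comp Γ Mᶜ a)ᶜ := by
            refine ⟨fun h => h comp_self, b, ?_, hab⟩
            intro h
            exact comp_sub (S := Mᶜ) ha h hb
          exact RC.trans' (h2 ha a h3) (RC.single' hab (hoZ' a b hab ha hb) (hMZ b hb hbG))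
        · refine ⟨fun h => absurd h hb, fun _ => ?_⟩
          have h4 : comp Γ Mᶜ b = comp Γ Mᶜ a := by
            have h5 : RC Γ Mᶜ a b := RC.single' hab ha hb
            ext z
            exact ⟨fun h => RC.trans' h5 h, fun h => RC.trans' h5.symm' h⟩
          rw [h4]
          exact h2 ha
    · exact ⟨fun _ => RC.rfl', fun h => absurd hoM h⟩
  have hdesc : ∀ z ∈ Z, ∃ o ∈ ob Γ G, RC Γ Z z o := by
    intro z hz
    obtain ⟨⟨g, hg, hd⟩, hzG⟩ := (hmemZ z).mp hz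
    obtain ⟨p, hp⟩ := hΓ.exists_walk_length_eq_dist z g
    obtain ⟨o, k, h1, h2, h3, h4⟩ := walk_descend (2 * D + 1) p hzG hg (by omega)
    refine ⟨o, ⟨h1, k, h2, h3⟩, RC.mono ?_ h4⟩
    rintro w ⟨hw, hwd⟩
    rw [hmemZ]
    exact ⟨⟨g, hg, hwd⟩, hw⟩
  refine ⟨?_, ?_⟩
  · obtain ⟨x, hx⟩ := hGc.1
    obtain ⟨y, hy⟩ := hG.1
    obtain ⟨p, hp⟩ := hΓ.exists_walk_length_eq_dist x y
    obtain ⟨o, k, h1, h2, h3, h4⟩ := first_exit hΓ p hx hy
    obtain ⟨h5, h6⟩ := hobG o ⟨h1, k, h2, h3⟩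
    exact ⟨o, hMZ o h5 h6⟩
  · intro a ha b hb
    obtain ⟨o, ho, h1⟩ := hdesc a ha
    obtain ⟨o', ho', h2⟩ := hdesc b hb
    exact RC.trans' h1 (RC.trans' (hobob o ho o' ho') h2.symm')

/-! ### Rays and finite boundaries -/

theorem walk_cross {Γ : SimpleGraph V} {F : Set V} {x y : V} (p : Γ.Walk x y) (hx : x ∈ F)
    (hy : y ∉ F) : ∃ a b, Γ.Adj a b ∧ a ∈ F ∧ b ∉ F ∧ a ∈ p.support := by
  induction p with
  | nil => exact absurd hx hy
  | @cons a b c hadj p ih =>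
    by_cases hb : b ∈ F
    · obtain ⟨u, v, h1, h2, h3, h4⟩ := ih hb hy
      exact ⟨u, v, h1, h2, h3, by simp [h4]⟩
    · exact ⟨a, b, hadj, hx, hb, by simp⟩

theorem no_common_end {Γ : SimpleGraph V} {F : Set V} (hbd : (bd Γ F).Finite) :
    ¬ ∃ ρ σ : ℕ → V, IsRay Γ ρ ∧ IsRay Γ σ ∧ (∀ n, ρ n ∈ F) ∧ (∀ n, σ n ∈ Fᶜ) ∧
      SameEnd Γ ρ σ := by
  rintro ⟨ρ, σ, _, _, hρ, hσ, hse⟩
  obtain ⟨N, hN⟩ := hse (Prod.fst '' bd Γ F) (hbd.image _)
  obtain ⟨p, hp⟩ := hN N le_rfl N le_rfl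
  obtain ⟨a, b, h1, h2, h3, h4⟩ := walk_cross p (hρ N) (hσ N)
  refine hp a h4 ⟨(a, b), ⟨h1, ?_⟩, rfl⟩
  simp only
  tauto

theorem next_vertex {H : SimpleGraph V} (hH : H.Connected) {v y : V} (hne : v ≠ y) :
    ∃ b, H.Adj v b ∧ H.dist v y = 1 + H.dist b y := by
  obtain ⟨p, hp⟩ := hH.exists_walk_length_eq_dist v y
  cases p with
  | nil => exact absurd rfl hne
  | @cons _ b _ hadj p =>
    simp only [Walk.length_cons] at hp
    refine ⟨b, hadj, ?_⟩
    have h1 := dist_le p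
    have h2 := hH.dist_triangle (u := v) (v := b) (w := y)
    have h3 := dist_adj hadj
    omega

theorem ray_step {H : SimpleGraph V} (hH : H.Connected) (lf : ∀ v, (H.neighborSet v).Finite)
    (h : ℕ → V) (hfin : ∀ w, (h ⁻¹' {w}).Finite) (v : V) (J : Set ℕ) (hJ : J.Infinite) :
    ∃ (w : V) (J' : Set ℕ), H.Adj v w ∧ J'.Infinite ∧ J' ⊆ J ∧
      ∀ k ∈ J', H.dist v (h k) = 1 + H.dist w (h k) := by
  by_contra hcon
  push Not at hcon
  have h1 : (J \ h ⁻¹' {v}).Infinite := hJ.sdiff (hfin v)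
  apply h1
  have h2 : (⋃ w ∈ H.neighborSet v, {k ∈ J | H.dist v (h k) = 1 + H.dist w (h k)}).Finite := by
    refine (lf v).biUnion ?_
    intro w hw
    by_contra hinf
    obtain ⟨k, hk, hk'⟩ := hcon w {k ∈ J | H.dist v (h k) = 1 + H.dist w (h k)} hw hinf
      (fun k hk => hk.1)
    exact hk' hk.2
  refine h2.subset ?_
  rintro k ⟨hk, hkv⟩
  have hne : v ≠ h k := fun e => hkv (by simp [← e])
  obtain ⟨b, hadj, hb⟩ := next_vertex hH hne
  exact Set.mem_biUnion (x := b) hadj ⟨hk, hb⟩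

theorem ray_lemma {H : SimpleGraph V} (hH : H.Connected) (lf : ∀ v, (H.neighborSet v).Finite)
    (o : V) (h : ℕ → V) (hfin : ∀ w, (h ⁻¹' {w}).Finite) :
    ∃ (ρ : ℕ → V) (J : ℕ → Set ℕ), (∀ n, H.Adj (ρ n) (ρ (n + 1))) ∧ Function.Injective ρ ∧
      (∀ n, (J n).Infinite) ∧ (∀ m n, m ≤ n → J n ⊆ J m) ∧
      (∀ n, ∀ k ∈ J n, H.dist (ρ 0) (h k) = n + H.dist (ρ n) (h k)) := by
  choose nw nJ hadj hinf hsub hdist using ray_step hH lf h hfin
  obtain ⟨st, hst⟩ : ∃ st : {s : V × Set ℕ // s.2.Infinite} → {s : V × Set ℕ // s.2.Infinite},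
      ∀ s, (st s).1 = (nw s.1.1 s.1.2 s.2, nJ s.1.1 s.1.2 s.2) :=
    ⟨fun s => ⟨(nw s.1.1 s.1.2 s.2, nJ s.1.1 s.1.2 s.2), hinf _ _ _⟩, fun _ => rfl⟩
  obtain ⟨q, hq0, hqs⟩ : ∃ q : ℕ → {s : V × Set ℕ // s.2.Infinite},
      q 0 = ⟨(o, Set.univ), Set.infinite_univ⟩ ∧ ∀ n, q (n + 1) = st (q n) :=
    ⟨fun n => st^[n] ⟨(o, Set.univ), Set.infinite_univ⟩, rfl,
      fun n => Function.iterate_succ_apply' _ _ _⟩
  have ea : ∀ n, H.Adj (q n).1.1 (q (n + 1)).1.1 := by
    intro n; rw [hqs, hst]; exact hadj _ _ _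
  have eJ : ∀ n, (q (n + 1)).1.2 ⊆ (q n).1.2 := by
    intro n; rw [hqs, hst]; exact hsub _ _ _
  have ed : ∀ n, ∀ k ∈ (q (n + 1)).1.2, H.dist (q n).1.1 (h k) =
      1 + H.dist (q (n + 1)).1.1 (h k) := by
    intro n; rw [hqs, hst]; exact hdist _ _ _
  have eanti : ∀ m n, m ≤ n → (q n).1.2 ⊆ (q m).1.2 := by
    intro m n hmn
    induction n, hmn using Nat.le_induction with
    | base => exact subset_rfl
    | succ n _ ih => exact (eJ n).trans ih
  have eD : ∀ n, ∀ k ∈ (q n).1.2, H.dist (q 0).1.1 (h k) = n + H.dist (q n).1.1 (h k) := by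
    intro n
    induction n with
    | zero => intro k _; omega
    | succ n ih =>
      intro k hk
      have h1 := ih k (eJ n hk)
      have h2 := ed n k hk
      omega
  refine ⟨fun n => (q n).1.1, fun n => (q n).1.2, ea, ?_, fun n => (q n).2, eanti, eD⟩
  have key : ∀ m n, m < n → (q m).1.1 ≠ (q n).1.1 := by
    intro m n hmn he
    obtain ⟨k, hk⟩ := (q n).2.nonempty
    have h1 := eD n k hk
    have h2 := eD m k (eanti m n hmn.le hk)
    rw [he] at h2
    omega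
  intro m n hmn
  by_contra hne
  rcases lt_or_gt_of_ne hne with hlt | hlt
  · exact key m n hlt hmn
  · exact key n m hlt hmn.symm

theorem tail_avoid {H : SimpleGraph V} (hH : H.Connected) {ρ : ℕ → V} {J : ℕ → Set ℕ}
    {h : ℕ → V}
    (hd : ∀ n, ∀ k ∈ J n, H.dist (ρ 0) (h k) = n + H.dist (ρ n) (h k)) {K : Set V}
    (hK : K.Finite) : ∃ N, ∀ m, N ≤ m → ∀ k ∈ J m, ρ m ∉ K ∧ h k ∉ K ∧ RC H Kᶜ (ρ m) (h k) := by
  obtain ⟨N, hN⟩ : ∃ N, ∀ z ∈ K, H.dist (ρ 0) z < N := by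
    obtain ⟨B, hB⟩ := (hK.image (fun z => H.dist (ρ 0) z)).bddAbove
    refine ⟨B + 1, fun z hz => ?_⟩
    have := hB ⟨z, hz, rfl⟩
    simp only at this
    omega
  refine ⟨N, fun m hm k hk => ?_⟩
  have h0 := hd m k hk
  have key : ∀ z, H.dist (ρ m) z + H.dist z (h k) ≤ H.dist (ρ m) (h k) → z ∉ K := by
    intro z hz hzK
    have h1 := hN z hzK
    have h2 := hH.dist_triangle (u := ρ 0) (v := z) (w := h k)
    omega
  refine ⟨key _ ?_, key _ ?_, RC.mono (fun z hz => key z hz) (interval hH (ρ m) (h k))⟩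
  · rw [dist_self]; omega
  · have : H.dist (h k) (h k) = 0 := dist_self
    omega

theorem rc_lift {Γ : SimpleGraph V} {F : Set V} {K : Set F} {x y : F}
    (h : RC (Γ.induce F) K x y) {K' : Set V} (hK : ∀ z : F, z ∈ K → z.1 ∈ K') :
    RC Γ K' x.1 y.1 := by
  induction h with
  | refl => exact RC.rfl'
  | @tail b c _ h ih => exact RC.trans' ih (RC.single' (induce_adj.1 h.1) (hK _ h.2.1) (hK _ h.2.2))

theorem common_end {Γ : SimpleGraph V} (lf : ∀ v, (Γ.neighborSet v).Finite) {F : Set V}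
    (hF : (Γ.induce F).Connected) (hFc : (Γ.induce Fᶜ).Connected) (hbd : ¬ (bd Γ F).Finite) :
    ∃ ρ σ : ℕ → V, IsRay Γ ρ ∧ IsRay Γ σ ∧ (∀ n, ρ n ∈ F) ∧ (∀ n, σ n ∈ Fᶜ) ∧
      SameEnd Γ ρ σ := by
  have lfF : ∀ (S : Set V) (v : S), ((Γ.induce S).neighborSet v).Finite := by
    intro S v
    have : (Γ.induce S).neighborSet v = Subtype.val ⁻¹' (Γ.neighborSet v.1) := by
      ext w; simp
    rw [this]
    exact (lf v.1).preimage Subtype.val_injective.injOn
  -- infinitely many boundary vertices in `F`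
  have hinf : {x : V | x ∈ F ∧ ∃ y ∈ Fᶜ, Γ.Adj x y}.Infinite := by
    intro hfin
    apply hbd
    have h1 : (⋃ x ∈ {x : V | x ∈ F ∧ ∃ y ∈ Fᶜ, Γ.Adj x y}, Γ.neighborSet x).Finite :=
      hfin.biUnion (fun x _ => lf x)
    refine ((hfin.prod h1).union (h1.prod hfin)).subset ?_
    rintro ⟨x, y⟩ ⟨hxy, hne⟩
    simp only at hxy hne
    by_cases hx : x ∈ F
    · have hy : y ∉ F := by tauto
      left
      exact ⟨⟨hx, y, hy, hxy⟩, Set.mem_biUnion (x := x) ⟨hx, y, hy, hxy⟩ hxy⟩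
    · have hy : y ∈ F := by tauto
      right
      exact ⟨Set.mem_biUnion (x := y) ⟨hy, x, hx, hxy.symm⟩ hxy.symm, ⟨hy, x, hx, hxy.symm⟩⟩
  obtain ⟨xs, hxs⟩ : ∃ xs : ℕ → V, Function.Injective xs ∧
      ∀ k, xs k ∈ F ∧ ∃ y ∈ Fᶜ, Γ.Adj (xs k) y :=
    ⟨fun k => (hinf.natEmbedding _ k).1, fun a b hab => (hinf.natEmbedding _).injective
      (Subtype.ext hab), fun k => (hinf.natEmbedding _ k).2⟩
  obtain ⟨hxinj, hxs⟩ := hxs
  choose hxF ys hyF hxy using hxs
  have hyfin : ∀ w, (ys ⁻¹' {w}).Finite := by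
    intro w
    have h1 : ys ⁻¹' {w} ⊆ xs ⁻¹' (Γ.neighborSet w) := by
      intro k hk
      have : ys k = w := hk
      have h2 := hxy k
      rw [this] at h2
      exact h2.symm
    exact ((lf w).preimage hxinj.injOn).subset h1
  obtain ⟨o1⟩ := hF.nonempty
  obtain ⟨o2⟩ := hFc.nonempty
  obtain ⟨ρ, J, r1, r2, r3, r4, r5⟩ := ray_lemma hF (lfF F) o1 (fun k => ⟨xs k, hxF k⟩) (by
    intro w
    refine (Set.finite_singleton w.1 |>.preimage hxinj.injOn).subset ?_
    intro k hk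
    have : (⟨xs k, hxF k⟩ : F) = w := hk
    simp [← this])
  obtain ⟨ks, hks, hksJ⟩ := Filter.extraction_forall_of_frequently (P := fun n k => k ∈ J n)
    (fun n => Nat.frequently_atTop_iff_infinite.mpr (r3 n))
  obtain ⟨σ, I, s1, s2, s3, s4, s5⟩ := ray_lemma hFc (lfF Fᶜ) o2
      (fun j => ⟨ys (ks j), hyF (ks j)⟩) (by
    intro w
    refine ((hyfin w.1).preimage hks.injective.injOn).subset ?_
    intro j hj
    have : (⟨ys (ks j), hyF (ks j)⟩ : (Fᶜ : Set V)) = w := hj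
    simp [← this])
  refine ⟨fun n => (ρ n).1, fun n => (σ n).1, ⟨fun a b hab => r2 (Subtype.ext hab),
    fun n => induce_adj.1 (r1 n)⟩, ⟨fun a b hab => s2 (Subtype.ext hab),
    fun n => induce_adj.1 (s1 n)⟩, fun n => (ρ n).2, fun n => (σ n).2, ?_⟩
  intro K hK
  obtain ⟨N1, hN1⟩ := tail_avoid hF r5 (hK.preimage (Subtype.val_injective (p := (· ∈ F))).injOn)
  obtain ⟨N2, hN2⟩ := tail_avoid hFc s5
    (hK.preimage (Subtype.val_injective (p := (· ∈ Fᶜ))).injOn)
  refine ⟨max N1 N2, fun m hm n hn => ?_⟩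
  obtain ⟨j, hj, hjm⟩ := (s3 n).exists_gt m
  have hjJ : ks j ∈ J m := r4 m j hjm.le (hksJ j)
  obtain ⟨a1, a2, a3⟩ := hN1 m (le_trans (le_max_left _ _) hm) (ks j) hjJ
  obtain ⟨b1, b2, b3⟩ := hN2 n (le_trans (le_max_right _ _) hn) j hj
  have c1 : RC Γ Kᶜ (ρ m).1 (xs (ks j)) := rc_lift a3 (fun z hz => hz)
  have c2 : RC Γ Kᶜ (σ n).1 (ys (ks j)) := rc_lift b3 (fun z hz => hz)
  have c3 : RC Γ Kᶜ (xs (ks j)) (ys (ks j)) := RC.single' (hxy (ks j)) a2 b2
  obtain ⟨p, hp⟩ := RC.to_walk (RC.trans' c1 (RC.trans' c3 c2.symm')) a1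
  exact ⟨p, hp⟩

theorem cb_iff {Γ : SimpleGraph V} (lf : ∀ v, (Γ.neighborSet v).Finite) (r : ℕ) :
    CB Γ r ↔ CBfin Γ r := by
  constructor
  · intro h K hK hKc hfin
    rw [← co_iff]
    exact h K ⟨(co_iff Γ K).mpr hK, (co_iff Γ Kᶜ).mpr hKc, no_common_end hfin⟩
  · rintro h K ⟨h1, h2, h3⟩
    rw [co_iff]
    refine h K ((co_iff Γ K).mp h1) ((co_iff Γ Kᶜ).mp h2) ?_
    by_contra hcon
    exact h3 (common_end lf h1 h2 hcon)

/-! ### Quasi-isometries and Cayley graphs -/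

theorem coarse_invariance {V : Type u} {V' : Type v} {Γ : SimpleGraph V} {Γ' : SimpleGraph V'}
    (hΓ : Γ.Connected) (hΓ' : Γ'.Connected)
    (lf : ∀ v, (Γ.neighborSet v).Finite) (lf' : ∀ v, (Γ'.neighborSet v).Finite)
    {f : V → V'} {g : V' → V} {c : ℕ}
    (h1 : ∀ x y, Γ.Adj x y → Γ'.dist (f x) (f y) ≤ c)
    (h2 : ∀ w, Γ'.dist w (f (g w)) ≤ c)
    (h3 : ∀ v w, Γ'.Adj v w → Γ.dist (g v) (g w) ≤ c)
    (h4 : ∀ v', (f ⁻¹' {v'}).Finite) (h : HasConnectedBoundaries Γ) :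
    HasConnectedBoundaries Γ' := by
  obtain ⟨r, hr⟩ := h
  rw [cb_iff lf] at hr
  refine ⟨2 * (2 * (c + 1) ^ 2 + c * (2 * r + 2)), ?_⟩
  rw [cb_iff lf']
  refine annulus hΓ' lf' ?_ ?_
  · have : 1 ≤ (c + 1) ^ 2 := Nat.one_le_pow _ _ (by omega)
    omega
  · intro F hF hFc hfin A hA hAne hBne
    exact transfer hΓ hΓ' lf' h1 h2 h3 h4 hr hF hFc hfin hA hAne hBne

theorem qi_invariance {V : Type u} {V' : Type v} {Γ : SimpleGraph V} {Γ' : SimpleGraph V'}
    (hΓ : Γ.Connected) (hΓ' : Γ'.Connected)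
    (lf : ∀ v, (Γ.neighborSet v).Finite) (lf' : ∀ v, (Γ'.neighborSet v).Finite)
    (hq : QuasiIsometric Γ Γ') (h : HasConnectedBoundaries Γ) : HasConnectedBoundaries Γ' := by
  obtain ⟨f, L, C, hL, hC, hf, hs⟩ := hq
  choose g hg using hs
  have hL0 : 0 < L := by linarith
  obtain ⟨c, hc⟩ := exists_nat_ge (L * (1 + 3 * C) + C)
  have hlow : ∀ x y, (Γ.dist x y : ℝ) ≤ L * ((Γ'.dist (f x) (f y) : ℝ) + C) := by
    intro x y
    have h1 := (hf x y).1
    have h2 : (Γ.dist x y : ℝ) / L ≤ (Γ'.dist (f x) (f y) : ℝ) + C := by linarith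
    rw [div_le_iff₀ hL0] at h2
    linarith
  refine coarse_invariance (f := f) (g := g) (c := c) hΓ hΓ' lf lf' ?_ ?_ ?_ ?_ h
  · intro x y hxy
    have h1 := (hf x y).2
    rw [dist_adj hxy] at h1
    have h2 : (Γ'.dist (f x) (f y) : ℝ) ≤ (c : ℝ) := by
      refine h1.trans (le_trans ?_ hc)
      push_cast
      nlinarith
    exact_mod_cast h2
  · intro w
    have h2 : (Γ'.dist w (f (g w)) : ℝ) ≤ (c : ℝ) := by
      refine (hg w).trans (le_trans ?_ hc)
      nlinarith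
    exact_mod_cast h2
  · intro v w hvw
    have h0 : (Γ'.dist (f (g v)) (f (g w)) : ℝ) ≤ 1 + 2 * C := by
      have e1 := hΓ'.dist_triangle (u := f (g v)) (v := v) (w := f (g w))
      have e2 := hΓ'.dist_triangle (u := v) (v := w) (w := f (g w))
      have e3 := Γ'.dist_comm (u := f (g v)) (v := v)
      have e4 := dist_adj hvw
      have e5 : (Γ'.dist (f (g v)) (f (g w)) : ℝ) ≤
          (Γ'.dist v (f (g v)) : ℝ) + 1 + (Γ'.dist w (f (g w)) : ℝ) := by
        have : Γ'.dist (f (g v)) (f (g w)) ≤ Γ'.dist v (f (g v)) + 1 + Γ'.dist w (f (g w)) := by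
          omega
        exact_mod_cast this
      have e6 := hg v
      have e7 := hg w
      linarith
    have h1 := hlow (g v) (g w)
    have h2 : (Γ.dist (g v) (g w) : ℝ) ≤ (c : ℝ) := by
      refine h1.trans (le_trans ?_ hc)
      have h3 : L * ((Γ'.dist (f (g v)) (f (g w)) : ℝ) + C) ≤ L * (1 + 2 * C + C) := by
        apply mul_le_mul_of_nonneg_left _ hL0.le
        linarith
      nlinarith
    exact_mod_cast h2
  · intro v'
    rcases Set.eq_empty_or_nonempty (f ⁻¹' {v'}) with he | ⟨x0, hx0⟩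
    · rw [he]; exact Set.finite_empty
    · refine (ball_finite hΓ lf x0 c).subset ?_
      intro x hx
      have e1 : f x0 = v' := hx0
      have e2 : f x = v' := hx
      have h1 := hlow x0 x
      rw [e1, e2, dist_self] at h1
      have h2 : (Γ.dist x0 x : ℝ) ≤ (c : ℝ) := by
        refine h1.trans (le_trans ?_ hc)
        push_cast
        nlinarith
      exact_mod_cast h2

theorem cayley_connected {G : Type u} [Group G] {S : Set G} (hS : Subgroup.closure S = ⊤) :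
    (mulCayley S).Connected := by
  have key : ∀ g ∈ Subgroup.closure S, ∀ x : G, (mulCayley S).Reachable x (x * g) := by
    intro g hg
    induction hg using Subgroup.closure_induction with
    | mem s hs =>
      intro x
      by_cases h : x = x * s
      · rw [← h]
      · refine SimpleGraph.Adj.reachable ?_
        rw [mulCayley_adj]
        refine ⟨h, Or.inl ?_⟩
        simpa using hs
    | one => intro x; rw [mul_one]
    | mul a b _ _ iha ihb =>
      intro x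
      rw [← mul_assoc]
      exact (iha x).trans (ihb (x * a))
    | inv a _ iha =>
      intro x
      have := (iha (x * a⁻¹)).symm
      simpa using this
  rw [connected_iff_exists_forall_reachable]
  refine ⟨1, fun g => ?_⟩
  have := key g (by rw [hS]; trivial) 1
  simpa using this

theorem cayley_lf {G : Type u} [Group G] {S : Set G} (hS : S.Finite) (v : G) :
    ((mulCayley S).neighborSet v).Finite := by
  refine ((hS.image (fun s => v * s)).union (hS.image (fun s => v * s⁻¹))).subset ?_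
  intro w hw
  have h : (mulCayley S).Adj v w := hw
  rw [mulCayley_adj] at h
  rcases h.2 with h | h
  · left; exact ⟨_, h, by simp⟩
  · right; exact ⟨_, h, by simp⟩

theorem cayley_dist_mul {G : Type u} [Group G] {S : Set G} (hS : Subgroup.closure S = ⊤)
    (a x y : G) : (mulCayley S).dist (a * x) (a * y) ≤ (mulCayley S).dist x y := by
  have key : ∀ {x y : G} (p : (mulCayley S).Walk x y),
      (mulCayley S).dist (a * x) (a * y) ≤ p.length := by
    intro x y p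
    induction p with
    | nil => simp
    | @cons u v w hadj p ih =>
      have h1 : (mulCayley S).Adj (a * u) (a * v) := by
        rw [mulCayley_adj_mul_iff_right]; exact hadj
      have h2 := (cayley_connected hS).dist_triangle (u := a * u) (v := a * v) (w := a * w)
      have h3 := dist_adj h1
      simp only [Walk.length_cons]
      omega
  obtain ⟨p, hp⟩ := (cayley_connected hS).exists_walk_length_eq_dist x y
  rw [← hp]
  exact key p

theorem cayley_change {G : Type u} [Group G] {S T : Set G} (hS : S.Finite)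
    (hT' : Subgroup.closure T = ⊤) :
    ∃ c : ℕ, ∀ x y, (mulCayley S).Adj x y → (mulCayley T).dist x y ≤ c := by
  obtain ⟨c, hc⟩ := (hS.image (fun s => (mulCayley T).dist 1 s)).bddAbove
  refine ⟨c, ?_⟩
  have key : ∀ x y : G, x⁻¹ * y ∈ S → (mulCayley T).dist x y ≤ c := by
    intro x y h
    have h1 := cayley_dist_mul hT' x 1 (x⁻¹ * y)
    have h2 := hc ⟨_, h, rfl⟩
    simp only at h2
    simp only [mul_one, mul_inv_cancel_left] at h1
    exact h1.trans h2
  intro x y hxy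
  rw [mulCayley_adj] at hxy
  rcases hxy.2 with h | h
  · exact key x y h
  · rw [SimpleGraph.dist_comm]; exact key y x h

/-- **Main theorem.**  Having connected boundaries is invariant (a) under change of the finite
generating set of a group, (b) under bi-Lipschitz equivalence of Cayley graphs and (c) under
quasi-isometry of Cayley graphs. -/
theorem result :
    (∀ (G : Type u) [Group G] (S T : Set G), S.Finite → T.Finite →
      Subgroup.closure S = ⊤ → Subgroup.closure T = ⊤ →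
      HasConnectedBoundaries (mulCayley S) → HasConnectedBoundaries (mulCayley T)) ∧
    (∀ (G : Type u) (H : Type v) [Group G] [Group H] (S : Set G) (T : Set H),
      S.Finite → T.Finite → Subgroup.closure S = ⊤ → Subgroup.closure T = ⊤ →
      BiLipschitzEquivalent (mulCayley S) (mulCayley T) →
      HasConnectedBoundaries (mulCayley S) → HasConnectedBoundaries (mulCayley T)) ∧
    (∀ (G : Type u) (H : Type v) [Group G] [Group H] (S : Set G) (T : Set H),
      S.Finite → T.Finite → Subgroup.closure S = ⊤ → Subgroup.closure T = ⊤ →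
      QuasiIsometric (mulCayley S) (mulCayley T) →
      HasConnectedBoundaries (mulCayley S) → HasConnectedBoundaries (mulCayley T)) := by
  refine ⟨?_, ?_, ?_⟩
  · intro G _ S T hS hT hS' hT' h
    obtain ⟨c1, hc1⟩ := cayley_change hS hT'
    obtain ⟨c2, hc2⟩ := cayley_change hT hS'
    refine coarse_invariance (f := id) (g := id) (c := max c1 c2) (cayley_connected hS')
      (cayley_connected hT') (cayley_lf hS) (cayley_lf hT) ?_ ?_ ?_ ?_ h
    · intro x y hxy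
      exact (hc1 x y hxy).trans (le_max_left _ _)
    · intro w
      simp
    · intro x y hxy
      exact (hc2 x y hxy).trans (le_max_right _ _)
    · intro w
      simp
  · intro G H _ _ S T hS hT hS' hT' hq h
    obtain ⟨f, L, hL, hf⟩ := hq
    refine qi_invariance (cayley_connected hS') (cayley_connected hT') (cayley_lf hS)
      (cayley_lf hT) ⟨f, L, 0, hL, le_rfl, ?_, ?_⟩ h
    · intro x y
      have := hf x y
      constructor
      · linarith [this.1]
      · linarith [this.2]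
    · intro w
      refine ⟨f.symm w, ?_⟩
      simp
  · intro G H _ _ S T hS hT hS' hT' hq h
    exact qi_invariance (cayley_connected hS') (cayley_connected hT') (cayley_lf hS)
      (cayley_lf hT) hq h

end Pool.Agent.Results.MP_40378c_al.QIInvariance
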